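import Pool.Agent.FKP.Stmts
import Pool.Agent.Helper75_FK.Pstar

/-!
# FKP, module GLM: the algebra part of the gluing theorem
-/

set_option autoImplicit false

open Finset

noncomputable section

namespace Pool.Agent.FKP.H45

variable {N : ℕ}

/-- the letters satisfy the relations of `FKZ` -/
theorem relX : FKZ.Rel (X : Fin N → Fin N → A N) where
  r1 a b c hab hbc := (X_path hab.ne hbc.ne (hab.trans hbc).ne).symm
  r2 a b c hab hbc := (X_path' hab.ne hbc.ne (hab.trans hbc).ne).symm
  cm a b c d _ _ h1 h2 h3 h4 := X_comm h1 h2 h3 h4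

theorem gen : Subring.closure {t : A N | ∃ a b : Fin N, a < b ∧ t = X a b} = ⊤ := by
  rw [eq_top_iff]
  intro z _
  refine A_induction (p := fun z => z ∈ Subring.closure {t : A N | ∃ a b : Fin N, a < b ∧ t = X a b})
    (zero_mem _) (fun a b ha hb => add_mem ha hb) (fun a ha => neg_mem ha) (fun w hw => ?_) z
  have : Wd N ≤ (Subring.closure {t : A N | ∃ a b : Fin N, a < b ∧ t = X a b}).toSubmonoid :=
    Submonoid.closure_le.2 Subring.subset_closure
  exact this hw

theorem out_le {j : ℕ} : Subsemiring.closure (Out N j) ≤ P N := by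
  refine Subsemiring.closure_le.2 ?_
  rintro _ ⟨p, hp, rfl⟩
  exact X_mem (Fin.lt_def.2 (lt_of_lt_of_le hp.1 hp.2))

/-- every letter is dominated by a polynomial in the Dunkl elements -/
theorem dom (hPie : PieStmt) {a b : Fin N} (hab : a < b) (f : MvPolynomial (Fin N) ℤ) :
    ∃ s, s ∈ P N ∧ s - X a b ∈ P N ∧ s * ev N f = ev N f * s := by
  obtain ⟨-, h2, h3⟩ := hPie N (a.val + 1) a.isLt
  refine ⟨ev N (ek N (a.val + 1) 1), out_le (h2 1), ?_, ev_comm _ _⟩
  obtain ⟨q, hq, he⟩ := h3 [(a, b)] (by
    intro p hp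
    simp only [List.mem_singleton] at hp
    subst hp
    refine ⟨Nat.lt_succ_self _, ?_⟩
    have := Fin.lt_def.1 hab
    simpa using this) (by simp)
  simp only [List.length_singleton, wd, List.map_cons, List.map_nil, List.prod_cons,
    List.prod_nil, mul_one] at he
  rw [he]
  have : X a b + q - X a b = q := by abel
  rw [this]
  exact hq

/-- the elements `z` with `y m z = 0` for all `m` -/
def kilI (y : A N) : TwoSidedIdeal (A N) :=
  TwoSidedIdeal.mk' {z | ∀ m, y * m * z = 0} (fun m => by simp)
    (fun {a b} ha hb m => by rw [mul_add, ha m, hb m, add_zero])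
    (fun {a} ha m => by rw [mul_neg, ha m, neg_zero])
    (fun {c a} ha m => by
      have := ha (m * c)
      rw [← this]; simp only [mul_assoc])
    (fun {a c} ha m => by rw [← mul_assoc, ha m, zero_mul])

theorem mem_kilI {y z : A N} : z ∈ kilI y ↔ ∀ m, y * m * z = 0 := by
  rw [kilI, TwoSidedIdeal.mem_mk']; rfl

/-- P* and lemma Z: words with at least `r + 1` rows are in the ideal -/
theorem words (hPie : PieStmt) {j r : ℕ} (hj : j ≤ N) {y : MvPolynomial (Fin N) ℤ}
    (hy : ev N y ∈ P N) (h0 : ev N (y * ek N j (r + 1)) = 0) (l : List (Fin N × Fin N))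
    (hl : ∀ p ∈ l, IsOut j p ∨ IsUp j p) (hr : r + 1 ≤ (rows j l).card) :
    wd l ∈ kilI (ev N y) := by
  rw [mem_kilI]
  have key := FKZ.zedCount (x := (X : Fin N → Fin N → A N)) (low := fun a => a.val < j)
    (I := fun z => ∀ m, ev N y * m * z = 0) relX
    (fun a b ha hb => Fin.lt_def.2 (lt_of_lt_of_le ha (not_lt.1 hb)))
    { add := fun a b ha hb m => by rw [mul_add, ha m, hb m, add_zero]
      neg := fun a ha m => by rw [mul_neg, ha m, neg_zero]
      left := fun c a ha m => by
        have := ha (m * c)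
        rw [← this]; simp only [mul_assoc]
      right := fun c a ha m => by rw [← mul_assoc, ha m, zero_mul] }
    (r + 1) ?_ l ?_ (rows j l) hr ?_
  · exact key
  · intro l hout hnd hlen
    obtain ⟨-, -, h3⟩ := hPie N j hj
    have hout' : ∀ p ∈ l, IsOut j p := fun p hp => ⟨(hout p hp).1, not_lt.1 (hout p hp).2⟩
    obtain ⟨q, hq, he⟩ := h3 l hout' hnd
    rw [hlen] at he
    have hW : FKZ.W (X : Fin N → Fin N → A N) l ∈ P N := by
      rw [FKZ.W]
      refine (P N).list_prod_mem ?_
      intro t ht
      obtain ⟨p, hp, rfl⟩ := List.mem_map.1 ht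
      exact X_mem (Fin.lt_def.2 (lt_of_lt_of_le (hout' p hp).1 (hout' p hp).2))
    refine FKZ.pstar (P N) (fun a h1 h2 => pointed h1 h2) _ gen
      (f := ev N (ek N j (r + 1))) (y := ev N y) ?_ (by rw [← map_mul]; exact h0) hy hW
      (by rw [sub_self]; exact zero_mem _) ?_
    · rintro t ⟨a, b, hab, rfl⟩
      exact ⟨X_mem hab, dom hPie hab _⟩
    · rw [he]
      have : wd l + q - FKZ.W X l = q := by
        have : wd l = FKZ.W (X : Fin N → Fin N → A N) l := rfl
        rw [this]; abel
      rw [this]; exact hq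
  · intro p hp
    rcases hl p hp with h | h
    · exact ⟨Fin.lt_def.2 (lt_of_lt_of_le h.1 h.2), not_lt.2 h.2⟩
    · exact ⟨h.2, not_lt.2 (h.1.trans (Fin.lt_def.1 h.2).le)⟩
  · intro a ha
    simp only [rows, mem_filter, List.mem_toFinset, List.mem_map] at ha
    obtain ⟨⟨p, hp, hpa⟩, hlt⟩ := ha
    exact ⟨hlt, p, hp, hpa⟩

/-- the Dunkl elements of the upper indices are in the ring of the outside and upper letters -/
theorem theta_mem {j : ℕ} {c : Fin N} (hc : j ≤ c.val) :
    θ c ∈ Subring.closure (OutUp N j) := by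
  rw [θ]
  refine sum_mem fun a _ => ?_
  rcases lt_trichotomy c a with h | h | h
  · exact Subring.subset_closure ⟨(c, a), Or.inr ⟨hc, h⟩, rfl⟩
  · subst h; rw [X_self]; exact zero_mem _
  · rw [X_neg a c]
    refine neg_mem (Subring.subset_closure ⟨(a, c), ?_, rfl⟩)
    rcases lt_or_ge a.val j with ha | ha
    · exact Or.inl ⟨ha, hc⟩
    · exact Or.inr ⟨ha, h⟩

theorem closure_out_le {j : ℕ} {z : A N} (hz : z ∈ Subsemiring.closure (Out N j)) :
    z ∈ Subring.closure (OutUp N j) := by
  have : Subsemiring.closure (Out N j) ≤ (Subring.closure (OutUp N j)).toSubsemiring := by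
    refine Subsemiring.closure_le.2 ?_
    rintro _ ⟨p, hp, rfl⟩
    exact Subring.subset_closure ⟨p, Or.inl hp, rfl⟩
  exact this hz

theorem ev_mem (hPie : PieStmt) {j : ℕ} (hj : j ≤ N) {G : MvPolynomial (Fin N) ℤ}
    (hG : G ∈ Algebra.adjoin ℤ ({z | ∃ k, z = ek N j k} ∪
      {z | ∃ c : Fin N, j ≤ c.val ∧ z = MvPolynomial.X c})) :
    ev N G ∈ Subring.closure (OutUp N j) := by
  induction hG using Algebra.adjoin_induction with
  | mem z hz =>
    rcases hz with ⟨k, rfl⟩ | ⟨c, hc, rfl⟩
    · exact closure_out_le ((hPie N j hj).2.1 k)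
    · rw [ev_X]; exact theta_mem hc
  | algebraMap c =>
    have : (algebraMap ℤ (MvPolynomial (Fin N) ℤ) c) = (c : MvPolynomial (Fin N) ℤ) := by simp
    rw [this, map_intCast]
    exact intCast_mem _ c
  | add a b _ _ ha hb => rw [map_add]; exact add_mem ha hb
  | mul a b _ _ ha hb => rw [map_mul]; exact mul_mem ha hb

/-- the strictly monotone map with range `K ∪ {c ≥ r + s}` -/
theorem exists_e (m r s : ℕ) (hr : r ≤ m) (K : Finset (Fin (m + s)))
    (hK : ∀ i ∈ K, i.val < r + s) (hc : K.card = r) :
    ∃ e : Fin m → Fin (m + s), StrictMono e ∧ (∀ a, r ≤ a.val → (e a).val = a.val + s) ∧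
      ∀ c, c ∈ Set.range e ↔ c ∈ K ∨ r + s ≤ c.val := by
  classical
  let g := K.orderEmbOfFin hc
  have hg : ∀ i, (g i).val < r + s := fun i => hK _ (K.orderEmbOfFin_mem hc i)
  refine ⟨fun a => if h : a.val < r then g ⟨a.val, h⟩ else ⟨a.val + s, by omega⟩, ?_, ?_, ?_⟩
  · intro a b hab
    have hab' := Fin.lt_def.1 hab
    simp only
    by_cases ha : a.val < r
    · by_cases hb : b.val < r
      · rw [dif_pos ha, dif_pos hb]
        exact g.strictMono (Fin.lt_def.2 hab')
      · rw [dif_pos ha, dif_neg hb, Fin.lt_def]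
        have := hg ⟨a.val, ha⟩
        show (g ⟨a.val, ha⟩).val < b.val + s
        omega
    · have hb : ¬ b.val < r := by omega
      rw [dif_neg ha, dif_neg hb, Fin.lt_def]
      show a.val + s < b.val + s
      omega
  · intro a ha
    simp only
    rw [dif_neg (not_lt.2 ha)]
  · intro c
    constructor
    · rintro ⟨a, rfl⟩
      simp only
      by_cases ha : a.val < r
      · rw [dif_pos ha]; exact Or.inl (K.orderEmbOfFin_mem hc _)
      · rw [dif_neg ha]; right; show r + s ≤ a.val + s; omega
    · rintro (h | h)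
      · have : c ∈ Set.range g := by rw [K.range_orderEmbOfFin hc]; exact h
        obtain ⟨i, hi⟩ := this
        refine ⟨⟨i.val, by omega⟩, ?_⟩
        simp only
        rw [dif_pos i.isLt, ← hi]
      · have hlt := c.isLt
        refine ⟨⟨c.val - s, by omega⟩, ?_⟩
        simp only
        rw [dif_neg (by omega)]
        apply Fin.ext
        show c.val - s + s = c.val
        omega

theorem glm (hPie : PieStmt) (hGlu : GluStmt) : GlmStmt := by
  intro m r s hr y G f hy h0 hf hG hk
  classical
  have hj : r + s ≤ m + s := by omega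
  have hw := fun l hl hl' => words hPie hj hy h0 l hl hl'
  obtain ⟨F, hF, hFI⟩ := hGlu (m + s) (r + s) r (kilI (ev (m + s) y)) (ev (m + s) G)
    (by omega) hj hw (ev_mem hPie hj hG) (by
      intro K hK hc
      obtain ⟨e, he, he1, he2⟩ := exists_e m r s hr K hK hc
      have hset : (univ.filter fun i : Fin (m + s) => i.val < r + s ∧ i ∉ K) =
          univ.filter fun a => a ∉ Set.range e := by
        ext c
        simp only [mem_filter, mem_univ, true_and]
        rw [he2 c]
        constructor
        · rintro ⟨h1, h2⟩ (h | h)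
          · exact h2 h
          · omega
        · intro h
          push Not at h
          exact ⟨by omega, h.1⟩
      rw [hset, ← iotE_kapE e he, kapE_ev e he, hk e he he1]
      exact iotE_P e he hf)
  rw [mem_kilI] at hFI
  have := hFI 1
  rw [mul_one, mul_sub, sub_eq_zero] at this
  rw [map_mul, this]
  exact mul_mem hy hF

end Pool.Agent.FKP.H45
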