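import Pool.Agent.FKP.Pos
import Pool.Agent.FKP.Fin1

/-!
# FKP, module POS
-/

set_option autoImplicit false

open Finset Equiv

noncomputable section

namespace Pool.Agent.FKP.H45

theorem ek_pos {N j k : ℕ} (hj : j ≤ N) : ev N (ek N j k) ∈ P N :=
  out_le ((Fin1.pie N j hj).2.1 k)

theorem flip_pos {N : ℕ} {f : MvPolynomial (Fin N) ℤ} (h : ev N f ∈ P N) :
    ev N (MvPolynomial.eval₂ MvPolynomial.C (fun i => -MvPolynomial.X (Fin.rev i)) f) ∈ P N := by
  obtain ⟨ρ, -, h2, h3⟩ := Fin1.aut N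
  rw [← h3]
  exact h2 _ h

theorem pos : PosStmt := by
  intro N f hf
  induction hf with
  | elem j k hj => exact ek_pos hj
  | diff M r p q h1 h2 h3 h4 => exact Fin1.tee _ M r p q h1 h2 h3 h4
  | add _ _ ih1 ih2 => rw [map_add]; exact add_mem ih1 ih2
  | mul _ _ ih1 ih2 => rw [map_mul]; exact mul_mem ih1 ih2
  | cong _ h ih => rw [← H86.ev_eq Fin1.pie h]; exact ih
  | flip _ ih => exact flip_pos ih
  | skew S u v hS _ _ ih1 ih2 => exact Fin1.skg _ _ u v ih1 ih2 S hS
  | glue S r v u hS h1 h2 h3 _ _ ih1 ih2 => exact Fin1.glg _ _ r v u h1 h2 h3 ih1 ih2 S hS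

/-- the permutations generated by the rules satisfy Q1 -/
theorem built_good {N : ℕ} {w : Perm (Fin N)} (h : Built N w) : good N w :=
  fun S hS => pos N _ (h S hS)

end Pool.Agent.FKP.H45
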